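import Mathlib
import Pool.Agent.H394R3.ET.Stmts

/-! # TASK CELLS of project ET -/

set_option autoImplicit false

open Finset

namespace Pool.Agent.H993R3.ET

open Pool.Agent.H96R3.BC Pool.Agent.H394R3.ET

theorem vv_pos (Q j₀ n : ℕ) (hj : 1 ≤ j₀) (hn : 1 ≤ n) : 0 < vv Q j₀ n := by
  unfold vv
  have h1 : (0:ℝ) < n := by exact_mod_cast hn
  have h2 : (0:ℝ) < j₀ := by exact_mod_cast hj
  positivity

/-- `(j/j₀)^(2Q)`-power relation -/
theorem UU_eq (Q j₀ j : ℕ) (hQ : 1 ≤ Q) :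
    UU j₀ j = (((j : ℝ) ^ (2 * Q)) / (j₀ : ℝ) ^ (2 * Q)) ^ (1 / (4 * (Q : ℝ))) := by
  have hQ' : (0:ℝ) < Q := by exact_mod_cast hQ
  unfold UU
  rw [← div_pow, Real.sqrt_eq_rpow, ← Real.rpow_natCast, ← Real.rpow_mul (by positivity)]
  congr 1
  push_cast
  field_simp
  norm_num

theorem vv_mem (Q j₀ j n : ℕ) (hQ : 1 ≤ Q) (hj : 1 ≤ j₀) (hn : n ∈ CC Q j) :
    UU j₀ j ≤ vv Q j₀ n ∧ vv Q j₀ n ≤ UU j₀ (j + 1) := by
  have h2 : (0:ℝ) < j₀ := by exact_mod_cast hj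
  simp only [CC, Finset.mem_Ioc] at hn
  have hn1 : ((j : ℝ) ^ (2 * Q)) ≤ n := by exact_mod_cast hn.1.le
  have hn2 : (n : ℝ) ≤ (((j + 1 : ℕ) : ℝ) ^ (2 * Q)) := by exact_mod_cast hn.2
  rw [UU_eq Q j₀ j hQ, UU_eq Q j₀ (j + 1) hQ]
  unfold vv
  constructor
  · apply Real.rpow_le_rpow (by positivity) _ (by positivity)
    gcongr
  · apply Real.rpow_le_rpow (by positivity) _ (by positivity)
    gcongr

theorem UU_mono (j₀ : ℕ) {i j : ℕ} (h : i ≤ j) : UU j₀ i ≤ UU j₀ j := by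
  unfold UU
  apply Real.sqrt_le_sqrt
  gcongr

theorem one_le_UU (j₀ j : ℕ) (h0 : 1 ≤ j₀) (h : j₀ ≤ j) : 1 ≤ UU j₀ j := by
  unfold UU
  have h2 : (0:ℝ) < j₀ := by exact_mod_cast h0
  have h3 : (j₀:ℝ) ≤ j := by exact_mod_cast h
  rw [Real.one_le_sqrt, one_le_div h2]
  exact h3

theorem cf_prime (y : ℕ → ℝ) (p : ℕ) (hp : p.Prime) : cf y p = y p := by
  unfold cf
  rw [if_pos hp.squarefree, hp.primeFactors, Finset.prod_singleton]

theorem abs_cf_le (y : ℕ → ℝ) (hy : ∀ p : ℕ, p.Prime → |y p| ≤ 1) (n : ℕ) : |cf y n| ≤ 1 := by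
  unfold cf
  split_ifs with h
  · rw [Finset.abs_prod]
    exact Finset.prod_le_one (fun _ _ => abs_nonneg _) (fun p hp => hy p (Nat.prime_of_mem_primeFactors hp))
  · simp

/-- the moment identity -/
theorem moment (Q j₀ : ℕ) (C : ℝ) (a0 : ℕ → ℝ) (w : ℕ → ℝ → ℝ) (hQ : 1 ≤ Q) (hj₀ : 1 ≤ j₀) (hw : Wts Q j₀ C a0 w)
    (s x : ℕ → ℝ) (f : ℝ → ℝ) (hs : Frc Q j₀ s) (ho : Out Q j₀ w s x f) (j : ℕ) (hj : j₀ ≤ j)
    (P : Polynomial ℝ) (hP : P.natDegree < 4 * Q + 4) :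
    ∑ n ∈ CC Q j, cf (fun p => s p + x p) n * ((vv Q j₀ n) ^ 2 * P.eval (vv Q j₀ n)) =
      ∫ u in (UU j₀ j)..(UU j₀ (j + 1)), f u * P.eval u := by
  set y : ℕ → ℝ := fun p => s p + x p with hy
  have hUU : UU j₀ j ≤ UU j₀ (j + 1) := UU_mono j₀ (Nat.le_succ j)
  have hfc : Continuous f := ho.sol.cont
  -- split into primes and composites
  have hsplit : ∑ n ∈ CC Q j, cf y n * ((vv Q j₀ n) ^ 2 * P.eval (vv Q j₀ n)) =
      ∑ p ∈ (CC Q j).filter Nat.Prime, cf y p * ((vv Q j₀ p) ^ 2 * P.eval (vv Q j₀ p)) +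
      ∑ n ∈ KC Q j, cf y n * ((vv Q j₀ n) ^ 2 * P.eval (vv Q j₀ n)) := by
    unfold KC
    rw [Finset.sum_filter_add_sum_filter_not]
  -- the forcing part
  have hsp : ∑ p ∈ (CC Q j).filter Nat.Prime, s p * (vv Q j₀ p) ^ 2 * P.eval (vv Q j₀ p) = 0 := by
    rw [← hs.mom j hj P hP, Finset.sum_filter]
    refine Finset.sum_congr rfl fun p _ => ?_
    split_ifs with hp
    · rfl
    · have : s p = 0 := by
        by_contra h
        exact hp (hs.supp p h).1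
      rw [this]; ring
  -- the response part
  have hwp : ∀ u : ℝ, UU j₀ j ≤ u → u ≤ UU j₀ (j + 1) →
      ∑ p ∈ (CC Q j).filter Nat.Prime, w p u * P.eval (vv Q j₀ p) = P.eval u := by
    intro u hu1 hu2
    rw [← hw.mom j hj u hu1 hu2 P hP, Finset.sum_filter]
    refine Finset.sum_congr rfl fun p _ => ?_
    split_ifs with hp
    · rfl
    · have : w p u = 0 := by
        by_contra h
        exact hp (hw.supp p u h).1
      rw [this]; ring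
  have hxp : ∑ p ∈ (CC Q j).filter Nat.Prime, x p * (vv Q j₀ p) ^ 2 * P.eval (vv Q j₀ p) =
      (∫ u in (UU j₀ j)..(UU j₀ (j + 1)), f u * P.eval u) -
        ∑ n ∈ KC Q j, cf y n * ((vv Q j₀ n) ^ 2 * P.eval (vv Q j₀ n)) := by
    have h1 : ∀ p ∈ (CC Q j).filter Nat.Prime, x p * (vv Q j₀ p) ^ 2 * P.eval (vv Q j₀ p) =
        (∫ u in (UU j₀ j)..(UU j₀ (j + 1)), f u * w p u * P.eval (vv Q j₀ p)) -
          ∑ n ∈ KC Q j, cf y n * (vv Q j₀ n) ^ 2 * w p (vv Q j₀ n) * P.eval (vv Q j₀ p) := by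
      intro p hp
      rw [Finset.mem_filter] at hp
      have hpp := ho.resp j hj p hp.1 hp.2
      have hv : 0 < vv Q j₀ p := vv_pos Q j₀ p hj₀ hp.2.one_lt.le
      rw [hpp, div_mul_cancel₀ _ (by positivity), sub_mul, intervalIntegral.integral_mul_const, Finset.sum_mul]
    rw [Finset.sum_congr rfl h1, Finset.sum_sub_distrib]
    congr 1
    · rw [← intervalIntegral.integral_finsetSum]
      · apply intervalIntegral.integral_congr
        intro u hu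
        rw [Set.uIcc_of_le hUU] at hu
        simp only
        rw [← hwp u hu.1 hu.2, Finset.mul_sum]
        refine Finset.sum_congr rfl fun p _ => ?_
        ring
      · intro p _
        exact ((hfc.mul (hw.cont p)).mul continuous_const).intervalIntegrable _ _
    · rw [Finset.sum_comm]
      refine Finset.sum_congr rfl fun n hn => ?_
      unfold KC at hn
      rw [Finset.mem_filter] at hn
      have hv := vv_mem Q j₀ j n hQ hj₀ hn.1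
      rw [← hwp _ hv.1 hv.2, Finset.mul_sum, Finset.mul_sum]
      refine Finset.sum_congr rfl fun p _ => ?_
      ring
  rw [hsplit]
  have hprime : ∑ p ∈ (CC Q j).filter Nat.Prime, cf y p * ((vv Q j₀ p) ^ 2 * P.eval (vv Q j₀ p)) =
      ∑ p ∈ (CC Q j).filter Nat.Prime, s p * (vv Q j₀ p) ^ 2 * P.eval (vv Q j₀ p) +
      ∑ p ∈ (CC Q j).filter Nat.Prime, x p * (vv Q j₀ p) ^ 2 * P.eval (vv Q j₀ p) := by
    rw [← Finset.sum_add_distrib]
    refine Finset.sum_congr rfl fun p hp => ?_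
    rw [Finset.mem_filter] at hp
    rw [cf_prime y p hp.2]
    simp only [hy]
    ring
  rw [hprime, hsp, hxp]
  ring

/-- the polynomial approximating `u ^ (-2)` near `c` -/
noncomputable def PP (c : ℝ) (m : ℕ) : Polynomial ℝ :=
  Polynomial.C (1 / c ^ 2) * (∑ k ∈ range m, (1 - Polynomial.C (1 / c) * Polynomial.X) ^ k) ^ 2

theorem PP_natDegree (c : ℝ) (Q : ℕ) : (PP c (2 * Q + 2)).natDegree < 4 * Q + 4 := by
  unfold PP
  have h1 : (∑ k ∈ range (2 * Q + 2), (1 - Polynomial.C (1 / c) * Polynomial.X) ^ k).natDegree ≤ 2 * Q + 1 := by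
    apply Polynomial.natDegree_sum_le_of_forall_le
    intro k hk
    rw [Finset.mem_range] at hk
    have h2 : (1 - Polynomial.C (1 / c) * Polynomial.X : Polynomial ℝ).natDegree ≤ 1 := by
      refine (Polynomial.natDegree_sub_le _ _).trans ?_
      rw [max_le_iff]
      refine ⟨by simp, (Polynomial.natDegree_C_mul_le _ _).trans (Polynomial.natDegree_X_le)⟩
    calc _ ≤ k * (1 - Polynomial.C (1 / c) * Polynomial.X : Polynomial ℝ).natDegree := Polynomial.natDegree_pow_le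
      _ ≤ k * 1 := Nat.mul_le_mul_left _ h2
      _ ≤ 2 * Q + 1 := by omega
  calc _ ≤ ((∑ k ∈ range (2 * Q + 2), (1 - Polynomial.C (1 / c) * Polynomial.X) ^ k) ^ 2).natDegree :=
        Polynomial.natDegree_C_mul_le _ _
    _ ≤ 2 * (∑ k ∈ range (2 * Q + 2), (1 - Polynomial.C (1 / c) * Polynomial.X) ^ k).natDegree :=
        Polynomial.natDegree_pow_le
    _ ≤ 2 * (2 * Q + 1) := Nat.mul_le_mul_left _ h1
    _ < 4 * Q + 4 := by omega

theorem PP_eval (c u : ℝ) (m : ℕ) (hc : 0 < c) :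
    u ^ 2 * (PP c m).eval u = (1 - (1 - u / c) ^ m) ^ 2 := by
  unfold PP
  rw [Polynomial.eval_mul, Polynomial.eval_C, Polynomial.eval_pow, Polynomial.eval_finsetSum]
  simp only [Polynomial.eval_pow, Polynomial.eval_sub, Polynomial.eval_one, Polynomial.eval_mul,
    Polynomial.eval_C, Polynomial.eval_X]
  have h := geom_sum_mul (1 - 1 / c * u) m
  have h2 : (1 - 1 / c * u) - 1 = - (u / c) := by ring
  rw [h2] at h
  have h3 : (1 - 1 / c * u) = 1 - u / c := by ring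
  rw [h3] at h ⊢
  have h4 : (1 - (1 - u / c) ^ m) ^ 2 = ((∑ k ∈ range m, (1 - u / c) ^ k) * -(u / c)) ^ 2 := by
    rw [h]; ring
  rw [h4]
  field_simp

theorem NN_le (Q : ℕ) (u V : ℝ) (h1 : 1 ≤ u) (h2 : u ≤ V) : NN Q u ≤ V ^ (3 * Q + 2) := by
  unfold NN
  split_ifs with h
  · have : u = 1 := le_antisymm h h1
    rw [this, one_pow]
    exact one_le_pow₀ (h1.trans h2)
  · exact pow_le_pow_left₀ (by linarith) h2 _

/-- ratio of the end points -/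
theorem UU_ratio (j₀ j : ℕ) (h0 : 1 ≤ j₀) (h : j₀ ≤ j) : UU j₀ (j + 1) ≤ (1 + 1 / (j : ℝ)) * UU j₀ j := by
  have h2 : (0:ℝ) < j₀ := by exact_mod_cast h0
  have h3 : (0:ℝ) < j := by exact_mod_cast (lt_of_lt_of_le h0 h)
  unfold UU
  rw [Real.sqrt_le_left (by positivity), mul_pow, Real.sq_sqrt (by positivity)]
  have : (((j + 1 : ℕ) : ℝ) / j₀) = (1 + 1 / (j : ℝ)) * ((j : ℝ) / j₀) := by
    push_cast
    field_simp
  rw [this]
  have h4 : (1:ℝ) ≤ 1 + 1 / (j : ℝ) := by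
    have : (0:ℝ) ≤ 1 / (j : ℝ) := by positivity
    linarith
  gcongr
  nlinarith

/-- bound of one cell -/
theorem cell_bd (Q j₀ : ℕ) (C : ℝ) (a0 : ℕ → ℝ) (w : ℕ → ℝ → ℝ) (hQ : 1 ≤ Q) (hj₀ : 1 ≤ j₀) (hw : Wts Q j₀ C a0 w)
    (s x : ℕ → ℝ) (f : ℝ → ℝ) (hs : Frc Q j₀ s) (ho : Out Q j₀ w s x f) (j : ℕ) (hj : j₀ ≤ j) :
    |∑ n ∈ CC Q j, cf (fun p => s p + x p) n| ≤
      (3 * 4 ^ Q + 4 * (j₀ : ℝ) ^ Q * j₀ * 2 ^ (3 * Q + 2)) * (Real.sqrt j) ^ (3 * Q - 1) := by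
  set y : ℕ → ℝ := fun p => s p + x p with hy
  have hj1 : 1 ≤ j := hj₀.trans hj
  have hjr : (1:ℝ) ≤ j := by exact_mod_cast hj1
  have hj0r : (1:ℝ) ≤ j₀ := by exact_mod_cast hj₀
  have hUU : UU j₀ j ≤ UU j₀ (j + 1) := UU_mono j₀ (Nat.le_succ j)
  have hc1 : 1 ≤ UU j₀ j := one_le_UU j₀ j hj₀ hj
  have hc : 0 < UU j₀ j := by linarith
  have hrat := UU_ratio j₀ j hj₀ hj
  have hfc : Continuous f := ho.sol.cont
  have hy1 : ∀ p : ℕ, p.Prime → |y p| ≤ 1 := fun p hp => ho.sol.small p hp rfl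
  set c := UU j₀ j with hcdef
  set m := 2 * Q + 2 with hm
  have hz : ∀ u : ℝ, c ≤ u → u ≤ UU j₀ (j + 1) → |1 - u / c| ≤ 1 / (j : ℝ) := by
    intro u h1 h2
    have h3 : 1 ≤ u / c := by rw [one_le_div hc]; exact h1
    have h4 : u / c ≤ 1 + 1 / (j : ℝ) := by
      rw [div_le_iff₀ hc]; linarith
    rw [abs_le]; constructor <;> linarith
  have hz1 : ∀ u : ℝ, c ≤ u → u ≤ UU j₀ (j + 1) → |(1 - u / c) ^ m| ≤ (1 / (j : ℝ)) ^ m := by
    intro u h1 h2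
    rw [abs_pow]
    exact pow_le_pow_left₀ (abs_nonneg _) (hz u h1 h2) _
  have hjm : (1 / (j : ℝ)) ^ m ≤ 1 := by
    apply pow_le_one₀ (by positivity)
    rw [div_le_one (by linarith)]; exact hjr
  -- decomposition
  have hdec : ∑ n ∈ CC Q j, cf y n = (∫ u in c..(UU j₀ (j + 1)), f u * (PP c m).eval u) +
      ∑ n ∈ CC Q j, cf y n * (1 - (1 - (1 - vv Q j₀ n / c) ^ m) ^ 2) := by
    rw [← moment Q j₀ C a0 w hQ hj₀ hw s x f hs ho j hj (PP c m) (PP_natDegree c Q), ← Finset.sum_add_distrib]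
    refine Finset.sum_congr rfl fun n _ => ?_
    rw [PP_eval c _ m hc]
    ring
  -- the error sum
  have hE1 : |∑ n ∈ CC Q j, cf y n * (1 - (1 - (1 - vv Q j₀ n / c) ^ m) ^ 2)| ≤ 3 * 4 ^ Q := by
    have h1 : ∀ n ∈ CC Q j, |cf y n * (1 - (1 - (1 - vv Q j₀ n / c) ^ m) ^ 2)| ≤ 3 * (1 / (j : ℝ)) ^ m := by
      intro n hn
      have hv := vv_mem Q j₀ j n hQ hj₀ hn
      have h2 := hz1 _ hv.1 hv.2
      set z := (1 - vv Q j₀ n / c) ^ m
      rw [abs_mul]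
      have h3 : |1 - (1 - z) ^ 2| ≤ 3 * (1 / (j : ℝ)) ^ m := by
        have : 1 - (1 - z) ^ 2 = z * (2 - z) := by ring
        rw [this, abs_mul]
        have h4 : |2 - z| ≤ 3 := by
          have := abs_le.mp (h2.trans hjm)
          rw [abs_le]; constructor <;> linarith
        calc |z| * |2 - z| ≤ (1 / (j : ℝ)) ^ m * 3 := by gcongr
          _ = _ := by ring
      calc |cf y n| * |1 - (1 - z) ^ 2| ≤ 1 * (3 * (1 / (j : ℝ)) ^ m) := by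
            gcongr
            exact abs_cf_le y hy1 n
        _ = _ := by ring
    have hcard : ((CC Q j).card : ℝ) ≤ (4:ℝ) ^ Q * (j : ℝ) ^ (2 * Q) := by
      have h1 : (CC Q j).card ≤ (j + 1) ^ (2 * Q) := by
        unfold CC
        rw [Nat.card_Ioc]; exact Nat.sub_le _ _
      have h2 : ((CC Q j).card : ℝ) ≤ ((j : ℝ) + 1) ^ (2 * Q) := by exact_mod_cast h1
      calc ((CC Q j).card : ℝ) ≤ ((j : ℝ) + 1) ^ (2 * Q) := h2
        _ ≤ (2 * (j : ℝ)) ^ (2 * Q) := by gcongr; linarith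
        _ = (4:ℝ) ^ Q * (j : ℝ) ^ (2 * Q) := by
            rw [mul_pow, pow_mul 2 2 Q]; norm_num
    calc |∑ n ∈ CC Q j, cf y n * (1 - (1 - (1 - vv Q j₀ n / c) ^ m) ^ 2)|
        ≤ ∑ n ∈ CC Q j, |cf y n * (1 - (1 - (1 - vv Q j₀ n / c) ^ m) ^ 2)| := Finset.abs_sum_le_sum_abs _ _
      _ ≤ ∑ n ∈ CC Q j, 3 * (1 / (j : ℝ)) ^ m := Finset.sum_le_sum h1
      _ = (CC Q j).card * (3 * (1 / (j : ℝ)) ^ m) := by rw [Finset.sum_const, nsmul_eq_mul]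
      _ ≤ ((4:ℝ) ^ Q * (j : ℝ) ^ (2 * Q)) * (3 * (1 / (j : ℝ)) ^ m) := by gcongr
      _ = 3 * 4 ^ Q * ((1 / (j : ℝ)) ^ 2) := by
          rw [hm, pow_add, one_div, inv_pow, inv_pow]
          field_simp
      _ ≤ 3 * 4 ^ Q * 1 := by
          gcongr
          apply pow_le_one₀ (by positivity)
          rw [div_le_one (by linarith)]; exact hjr
      _ = _ := by ring
  -- the integral
  have hsj : 1 ≤ Real.sqrt j := by rw [Real.one_le_sqrt]; exact hjr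
  have hE2 : |∫ u in c..(UU j₀ (j + 1)), f u * (PP c m).eval u| ≤
      4 * (j₀ : ℝ) ^ Q * j₀ * 2 ^ (3 * Q + 2) * (Real.sqrt j) ^ (3 * Q - 1) := by
    have h1 : ∀ u ∈ Set.uIoc c (UU j₀ (j + 1)), ‖f u * (PP c m).eval u‖ ≤
        (j₀ : ℝ) ^ Q * UU j₀ (j + 1) ^ (3 * Q + 2) * (4 / c ^ 2) := by
      intro u hu
      rw [Set.uIoc_of_le hUU] at hu
      have hu1 : c ≤ u := hu.1.le
      have hu0 : 0 < u := lt_of_lt_of_le hc hu1
      rw [Real.norm_eq_abs, abs_mul]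
      have h2 : |f u| ≤ (j₀ : ℝ) ^ Q * UU j₀ (j + 1) ^ (3 * Q + 2) := by
        refine (ho.fbd u hu0.le).trans ?_
        gcongr
        exact NN_le Q u _ (hc1.trans hu1) hu.2
      have h3 : |(PP c m).eval u| ≤ 4 / c ^ 2 := by
        have h4 := PP_eval c u m hc
        have h5 : (PP c m).eval u = (1 - (1 - u / c) ^ m) ^ 2 / u ^ 2 := by
          rw [← h4]; field_simp
        have h6 := abs_le.mp ((hz1 u hu1 hu.2).trans hjm)
        rw [h5, abs_of_nonneg (by positivity)]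
        have h7 : (1 - (1 - u / c) ^ m) ^ 2 ≤ 4 := by nlinarith
        gcongr
      exact mul_le_mul h2 h3 (abs_nonneg _) ((abs_nonneg _).trans h2)
    have h2 := intervalIntegral.norm_integral_le_of_norm_le_const h1
    rw [Real.norm_eq_abs] at h2
    refine h2.trans ?_
    rw [abs_of_nonneg (by linarith)]
    -- numbers
    have hc2 : c ^ 2 = (j : ℝ) / j₀ := by
      rw [hcdef]; unfold UU; rw [Real.sq_sqrt (by positivity)]
    have hsq : Real.sqrt j ^ 2 = j := Real.sq_sqrt (by positivity)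
    have hcle : c ≤ Real.sqrt j := by
      rw [hcdef]; unfold UU
      apply Real.sqrt_le_sqrt
      exact div_le_self (by positivity) hj0r
    have h5 : UU j₀ (j + 1) ≤ 2 * Real.sqrt j := by
      calc UU j₀ (j + 1) ≤ (1 + 1 / (j : ℝ)) * c := hrat
        _ ≤ 2 * Real.sqrt j := by
            have : 1 / (j : ℝ) ≤ 1 := by rw [div_le_one (by linarith)]; exact hjr
            apply mul_le_mul (by linarith) hcle hc.le (by norm_num)
    have h6 : UU j₀ (j + 1) - c ≤ 1 / Real.sqrt j := by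
      have : UU j₀ (j + 1) - c ≤ 1 / (j : ℝ) * c := by linarith [hrat]
      refine this.trans ?_
      calc 1 / (j : ℝ) * c ≤ 1 / (j : ℝ) * Real.sqrt j := by gcongr
        _ = 1 / Real.sqrt j := by
            nth_rewrite 1 [← hsq]
            field_simp
    have h7 : (4 / c ^ 2) = 4 * j₀ / Real.sqrt j ^ 2 := by
      rw [hc2, hsq]; field_simp
    obtain ⟨e, he⟩ : ∃ e, 3 * Q - 1 = e ∧ 3 * Q + 2 = e + 3 := ⟨3 * Q - 1, rfl, by omega⟩
    rw [he.1, he.2]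
    rw [he.2] at *
    calc (j₀ : ℝ) ^ Q * UU j₀ (j + 1) ^ (e + 3) * (4 / c ^ 2) * (UU j₀ (j + 1) - c)
        ≤ (j₀ : ℝ) ^ Q * (2 * Real.sqrt j) ^ (e + 3) * (4 / c ^ 2) * (1 / Real.sqrt j) := by
          have : 0 ≤ UU j₀ (j + 1) := Real.sqrt_nonneg _
          gcongr
      _ = 4 * (j₀ : ℝ) ^ Q * j₀ * 2 ^ (e + 3) * (Real.sqrt j) ^ e := by
          rw [h7, mul_pow, pow_add (Real.sqrt j) e 3]
          have : Real.sqrt j ≠ 0 := by positivity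
          field_simp
  rw [hdec]
  have hone : (1:ℝ) ≤ (Real.sqrt j) ^ (3 * Q - 1) := one_le_pow₀ hsj
  calc |_ + _| ≤ _ := abs_add_le _ _
    _ ≤ 4 * (j₀ : ℝ) ^ Q * j₀ * 2 ^ (3 * Q + 2) * (Real.sqrt j) ^ (3 * Q - 1) + 3 * 4 ^ Q := add_le_add hE2 hE1
    _ ≤ 4 * (j₀ : ℝ) ^ Q * j₀ * 2 ^ (3 * Q + 2) * (Real.sqrt j) ^ (3 * Q - 1) +
        3 * 4 ^ Q * (Real.sqrt j) ^ (3 * Q - 1) := by
        have : (0:ℝ) ≤ 3 * 4 ^ Q := by positivity
        nlinarith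
    _ = _ := by ring

/-- all cells -/
theorem all_bd (Q j₀ : ℕ) (C : ℝ) (a0 : ℕ → ℝ) (w : ℕ → ℝ → ℝ) (hQ : 1 ≤ Q) (hj₀ : 1 ≤ j₀) (hw : Wts Q j₀ C a0 w)
    (s x : ℕ → ℝ) (f : ℝ → ℝ) (hs : Frc Q j₀ s) (ho : Out Q j₀ w s x f) (J : ℕ) (hJ : j₀ ≤ J) :
    |∑ n ∈ Icc 1 (J ^ (2 * Q)), cf (fun p => s p + x p) n| ≤
      (j₀ : ℝ) ^ (2 * Q) + (J - j₀) * ((3 * 4 ^ Q + 4 * (j₀ : ℝ) ^ Q * j₀ * 2 ^ (3 * Q + 2)) * (Real.sqrt J) ^ (3 * Q - 1)) := by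
  set y : ℕ → ℝ := fun p => s p + x p with hy
  have hy1 : ∀ p : ℕ, p.Prime → |y p| ≤ 1 := fun p hp => ho.sol.small p hp rfl
  induction J, hJ using Nat.le_induction with
  | base =>
    rw [sub_self, zero_mul, add_zero]
    calc |∑ n ∈ Icc 1 (j₀ ^ (2 * Q)), cf y n| ≤ ∑ n ∈ Icc 1 (j₀ ^ (2 * Q)), |cf y n| := Finset.abs_sum_le_sum_abs _ _
      _ ≤ ∑ n ∈ Icc 1 (j₀ ^ (2 * Q)), (1:ℝ) := Finset.sum_le_sum fun n _ => abs_cf_le y hy1 n
      _ = (j₀ : ℝ) ^ (2 * Q) := by simp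
  | succ J hJ ih =>
    have hsum : ∑ n ∈ Icc 1 ((J + 1) ^ (2 * Q)), cf y n = ∑ n ∈ Icc 1 (J ^ (2 * Q)), cf y n + ∑ n ∈ CC Q J, cf y n := by
      have hle : J ^ (2 * Q) ≤ (J + 1) ^ (2 * Q) := Nat.pow_le_pow_left (Nat.le_succ J) _
      have h1 : 1 ≤ J ^ (2 * Q) := Nat.one_le_pow _ _ (lt_of_lt_of_le hj₀ hJ)
      have hun : Icc 1 ((J + 1) ^ (2 * Q)) = Icc 1 (J ^ (2 * Q)) ∪ CC Q J := by
        ext n
        simp only [CC, Finset.mem_Icc, Finset.mem_union, Finset.mem_Ioc]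
        omega
      rw [hun, Finset.sum_union]
      rw [Finset.disjoint_left]
      intro n hn hn2
      simp only [CC, Finset.mem_Icc, Finset.mem_Ioc] at hn hn2
      omega
    rw [hsum]
    have hcell := cell_bd Q j₀ C a0 w hQ hj₀ hw s x f hs ho J hJ
    set K₂ : ℝ := 3 * 4 ^ Q + 4 * (j₀ : ℝ) ^ Q * j₀ * 2 ^ (3 * Q + 2) with hK
    have hK0 : 0 ≤ K₂ := by positivity
    have hmono : (Real.sqrt (J : ℝ)) ^ (3 * Q - 1) ≤ (Real.sqrt ((J + 1 : ℕ) : ℝ)) ^ (3 * Q - 1) := by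
      gcongr
      linarith
    have hJr : (j₀ : ℝ) ≤ J := by exact_mod_cast hJ
    calc |_ + _| ≤ _ := abs_add_le _ _
      _ ≤ ((j₀ : ℝ) ^ (2 * Q) + (J - j₀) * (K₂ * (Real.sqrt J) ^ (3 * Q - 1))) + K₂ * (Real.sqrt J) ^ (3 * Q - 1) :=
          add_le_add ih hcell
      _ = (j₀ : ℝ) ^ (2 * Q) + ((J + 1 : ℝ) - j₀) * (K₂ * (Real.sqrt J) ^ (3 * Q - 1)) := by ring
      _ ≤ (j₀ : ℝ) ^ (2 * Q) + ((J + 1 : ℝ) - j₀) * (K₂ * (Real.sqrt ((J + 1 : ℕ) : ℝ)) ^ (3 * Q - 1)) := by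
          have : (0:ℝ) ≤ (J + 1 : ℝ) - j₀ := by linarith
          gcongr
      _ = _ := by push_cast; ring

theorem taskCells : TaskCells := by
  refine ⟨1, fun Q hQ C _ j₀ hj₀ => ⟨(j₀ : ℝ) ^ (2 * Q) + (3 * 4 ^ Q + 4 * (j₀ : ℝ) ^ Q * j₀ * 2 ^ (3 * Q + 2)), by positivity, ?_⟩⟩
  intro a0 w hw s x f hs ho J hJ
  have hj1 : 1 ≤ j₀ := by omega
  refine (all_bd Q j₀ C a0 w hQ hj1 hw s x f hs ho J hJ).trans ?_
  have hJ1 : (1:ℝ) ≤ J := by exact_mod_cast hj1.trans hJ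
  have hsJ : 1 ≤ Real.sqrt J := by rw [Real.one_le_sqrt]; exact hJ1
  have hj0r : (0:ℝ) ≤ j₀ := by positivity
  obtain ⟨e, he⟩ : ∃ e, 3 * Q - 1 = e ∧ 3 * Q = e + 1 := ⟨3 * Q - 1, rfl, by omega⟩
  have heq : (J : ℝ) ^ ((3 * (Q : ℝ) + 1) / 2) = J * (Real.sqrt J) ^ (3 * Q - 1) := by
    have h1 : (3 * (Q : ℝ)) = (e : ℝ) + 1 := by exact_mod_cast he.2
    rw [he.1, h1, Real.sqrt_eq_rpow, ← Real.rpow_natCast, ← Real.rpow_mul (by positivity)]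
    nth_rewrite 2 [← Real.rpow_one (J : ℝ)]
    rw [← Real.rpow_add (by positivity)]
    congr 1
    ring
  rw [heq]
  set K₂ : ℝ := 3 * 4 ^ Q + 4 * (j₀ : ℝ) ^ Q * j₀ * 2 ^ (3 * Q + 2) with hK
  have hK0 : 0 ≤ K₂ := by positivity
  have hone : (1:ℝ) ≤ (Real.sqrt J) ^ (3 * Q - 1) := one_le_pow₀ hsJ
  have hA : (1:ℝ) ≤ J * (Real.sqrt J) ^ (3 * Q - 1) := one_le_mul_of_one_le_of_one_le hJ1 hone
  have hB : ((J : ℝ) - j₀) * (K₂ * (Real.sqrt J) ^ (3 * Q - 1)) ≤ J * (K₂ * (Real.sqrt J) ^ (3 * Q - 1)) := by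
    gcongr
    linarith
  have hC : (j₀ : ℝ) ^ (2 * Q) ≤ (j₀ : ℝ) ^ (2 * Q) * (J * (Real.sqrt J) ^ (3 * Q - 1)) :=
    le_mul_of_one_le_right (by positivity) hA
  calc _ ≤ (j₀ : ℝ) ^ (2 * Q) * (J * (Real.sqrt J) ^ (3 * Q - 1)) + J * (K₂ * (Real.sqrt J) ^ (3 * Q - 1)) :=
        add_le_add hC hB
    _ = _ := by ring

end Pool.Agent.H993R3.ET
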